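import Pool.Agent.Work.MP_64ea0f_cs.InterfaceG1

set_option autoImplicit false

namespace Pool.CS

namespace CLC

theorem sigma_inv {D : Rd} (hB : Stmt_BAS) (s : D.S) : (D.σ s)⁻¹ = D.σ s := by
  obtain ⟨-, -, -, -, -, -, b7, -, -, -, b11, -, -, b14, -, -⟩ := hB D
  have h := b11 _ (b7 s)
  rw [b14] at h
  exact inv_eq_of_mul_eq_one_left h

theorem sigma_e {D : Rd} (hB : Stmt_BAS) (s : D.S) : D.ρ (D.σ s) (D.e s) = -D.e s := by
  obtain ⟨-, -, -, -, -, b6, b7, -, -, b10, -, -, -, b14, -, -⟩ := hB D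
  have h := b10 _ (b7 s) (D.e s)
  rw [b14, b6 _ (b7 s)] at h
  rw [h]
  module

/-- if `μ` is positive, not `e s` and `B μ (e s) ≥ 1` then `Sub (e s) μ` -/
theorem sub_of_ge {D : Rd} (hB : Stmt_BAS) (hS : Stmt_SGN) (hN : Stmt_NST) {μ : D.V} (hμ : μ ∈ D.Ps)
    {s : D.S} (hne : μ ≠ D.e s) (h : 1 ≤ D.B μ (D.e s)) : D.Sub (D.e s) μ := by
  obtain ⟨-, -, -, -, -, -, b7, -, -, -, -, -, -, -, -, -⟩ := hB D
  obtain ⟨-, s2, -, s4, s5, -, -, -, -⟩ := hS D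
  obtain ⟨-, n2, -, -, -, -⟩ := hN D μ hμ.1 (D.e s) (b7 s)
  rcases n2 h with h1 | h1
  · exfalso
    have h2 : D.On (D.σ s) μ := by
      unfold Rd.On
      rw [sigma_inv hB]
      exact s5 s μ hμ hne
    have h3 := h1 _ h2
    unfold Rd.On at h3
    rw [sigma_inv hB, sigma_e hB] at h3
    exact s2 _ (s4 s) h3
  · exact h1

end CLC

open CLC in
theorem blk_CLC (hB : Stmt_BAS) (hS : Stmt_SGN) (hN : Stmt_NST) (hV : Stmt_VX1) : Stmt_CLC := by
  intro D x hx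
  obtain ⟨hvx, hcl⟩ := hx
  obtain ⟨-, -, -, -, -, -, b7, -, -, -, -, -, -, -, -, -⟩ := hB D
  obtain ⟨s1, s2, -, s4, s5, -, -, -, -⟩ := hS D
  obtain ⟨-, -, -, -, -, v6, -, -, v9, v10, -⟩ := hV D
  have h1 : ∀ s, D.e s ∈ x := by
    intro s
    by_contra hs
    have hneg : -D.e s ∈ x := (hvx.tot _ (b7 s)).resolve_left hs
    have hmem : -D.e s ∈ x \ D.Ps := ⟨hneg, s2 _ (s4 s)⟩
    have hsub : x \ D.act (D.σ s) D.Ps ⊆ (x \ D.Ps) \ {-D.e s} := by
      rintro φ ⟨hφ, hφ'⟩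
      rw [v6, sigma_inv hB] at hφ'
      refine ⟨⟨hφ, fun hP => hφ' (s5 s φ hP ?_)⟩, ?_⟩
      · rintro rfl; exact hs hφ
      · intro h
        rw [Set.mem_singleton_iff] at h
        apply hφ'
        rw [h, map_neg, sigma_e hB, neg_neg]
        exact s4 s
    have hlt : (x \ D.act (D.σ s) D.Ps).ncard < (x \ D.Ps).ncard :=
      lt_of_le_of_lt (Set.ncard_le_ncard hsub (hvx.fin.subset Set.diff_subset))
        (Set.ncard_diff_singleton_lt_of_mem hmem hvx.fin)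
    exact absurd (hcl (D.σ s)) (not_le.2 hlt)
  refine ⟨h1, ?_, ?_⟩
  · intro μ hμ hneg s
    by_contra hge
    rw [not_lt] at hge
    have hne : μ ≠ D.e s := by
      rintro rfl
      exact v9 x hvx _ (h1 s) hneg
    have hsub := sub_of_ge hB hS hN hμ hne hge
    exact v9 x hvx _ (v10 x hvx _ (h1 s) _ hμ.1 hsub) hneg
  · intro μ hμ hmn
    by_cases hex : ∃ s, μ = D.e s
    · exact Or.inl hex
    right
    intro s
    by_contra hge
    rw [not_lt] at hge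
    have hne : μ ≠ D.e s := fun h => hex ⟨s, h⟩
    have hsub := sub_of_ge hB hS hN hμ hne hge
    exact hne (hmn.2 _ (h1 s) hsub).symm

end Pool.CS
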