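import Pool.Agent.Work.MP_64ea0f_cs.InterfaceB

set_option autoImplicit false

/-! Block DEEP: deep subgroups exist. -/

namespace Pool.CS

theorem deep_thm (hBAS : Stmt_BAS) (hFINO : Stmt_FINO) (hINFO : Stmt_INFO) (hRSF : Stmt_RSF)
    (hVX1 : Stmt_VX1) (hCOF : Stmt_COF) (hLFN : Stmt_LFN) : Stmt_DEEP := by
  intro D
  refine ⟨fun hAF => ?_, ?_⟩
  · obtain ⟨hsymm, -, -, -, -, -, -, hRtw, -, -, hsq, hconj, hneg, -, hinj, -⟩ := hBAS D
    obtain ⟨-, -, -, -, -, -, hMn, -, hanti, -, -⟩ := hVX1 D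
    obtain ⟨N0, hN0n, hN0f, hN0t, -, -⟩ := hRSF D ∅ Set.finite_empty (Set.notMem_empty _)
    obtain ⟨P, hPfin, hPX, hP⟩ := hCOF D hAF Set.univ
    have hXJ : ∀ x, D.Vx x → D.XJ Set.univ x :=
      fun x hx => ⟨hx, fun φ _ hφ => absurd (fun s hs => absurd (Set.mem_univ s) hs) hφ⟩
    set k0 := N0.index with hk0
    have hk0pos : 0 < k0 := Nat.pos_of_ne_zero hN0f.index_ne_zero
    -- elements of finite order
    have hord : ∀ (y : D.W) (k : ℕ), 0 < k → y ^ k = 1 → y ^ k0 = 1 := by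
      intro y k hk hy
      refine hN0t (y ^ k0) (Subgroup.pow_index_mem N0 y) k hk ?_
      rw [← pow_mul, mul_comm, pow_mul, hy, one_pow]
    set E : Set D.W := {y | y ≠ 1 ∧ ∃ x ∈ P, ∃ φ ψ, D.Mn x φ ∧ D.Mn x ψ ∧
      (y = D.rf φ * D.rf ψ ∨ y = (D.rf φ * D.rf ψ) ^ k0)} with hE
    have hEfin : E.Finite := by
      have h1 : (⋃ x ∈ P, (Set.image2 (fun φ ψ => D.rf φ * D.rf ψ) {φ | D.Mn x φ} {ψ | D.Mn x ψ} ∪
          Set.image2 (fun φ ψ => (D.rf φ * D.rf ψ) ^ k0) {φ | D.Mn x φ} {ψ | D.Mn x ψ})).Finite := by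
        refine hPfin.biUnion fun x hx => ?_
        have hx1 : {φ | D.Mn x φ}.Finite := hLFN D hAF x (hPX x hx).1
        exact (hx1.image2 _ hx1).union (hx1.image2 _ hx1)
      refine h1.subset ?_
      rintro y ⟨-, x, hx, φ, ψ, hφ, hψ, hy⟩
      refine Set.mem_biUnion hx ?_
      rcases hy with hy | hy
      · exact Or.inl ⟨φ, hφ, ψ, hψ, hy.symm⟩
      · exact Or.inr ⟨φ, hφ, ψ, hψ, hy.symm⟩
    have hE1 : (1 : D.W) ∉ E := fun h => h.1 rfl
    obtain ⟨H, hHn, hHf, hHt, hHi, hHE⟩ := hRSF D E hEfin hE1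
    -- the key fact: products of two reflections in minimal roots of a vertex
    have key : ∀ x, D.Vx x → ∀ φ ψ, D.Mn x φ → D.Mn x ψ →
        (D.rf φ * D.rf ψ ∈ H → D.rf φ * D.rf ψ = 1) ∧
        ((D.rf φ * D.rf ψ) ^ k0 ∈ H → (D.rf φ * D.rf ψ) ^ k0 = 1) := by
      intro x hx φ ψ hφ hψ
      obtain ⟨w, -, hw⟩ := hP x (hXJ x hx)
      have hφR : φ ∈ D.Rt := hx.sub hφ.1
      have hψR : ψ ∈ D.Rt := hx.sub hψ.1
      have hφ' := (hMn x hx w φ).mp hφ
      have hψ' := (hMn x hx w ψ).mp hψ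
      have hprod : D.rf (D.ρ w φ) * D.rf (D.ρ w ψ) = w * (D.rf φ * D.rf ψ) * w⁻¹ := by
        rw [hconj φ hφR w, hconj ψ hψR w]; group
      constructor
      · intro h
        by_contra hne
        have h1 : w * (D.rf φ * D.rf ψ) * w⁻¹ ∈ H := hHn.conj_mem _ h w
        refine hHE _ ?_ h1
        refine ⟨?_, D.act w x, hw, D.ρ w φ, D.ρ w ψ, hφ', hψ', Or.inl hprod.symm⟩
        intro h2
        apply hne
        rwa [conj_eq_one_iff] at h2
      · intro h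
        by_contra hne
        have h1 : w * (D.rf φ * D.rf ψ) ^ k0 * w⁻¹ ∈ H := hHn.conj_mem _ h w
        refine hHE _ ?_ h1
        refine ⟨?_, D.act w x, hw, D.ρ w φ, D.ρ w ψ, hφ', hψ', Or.inr ?_⟩
        · intro h2
          apply hne
          rwa [conj_eq_one_iff] at h2
        · rw [hprod, conj_pow]
    refine ⟨H, hHn, hHf, hHt, hHi, ?_, ?_⟩
    · -- self
      rintro x hx φ ψ hφ hψ ⟨h, hh, hψh⟩
      have hφR : φ ∈ D.Rt := hx.sub hφ.1
      have hψR : ψ ∈ D.Rt := hx.sub hψ.1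
      have hrf : D.rf ψ = h * D.rf φ * h⁻¹ := by
        rcases hψh with h1 | h1
        · rw [h1, hconj φ hφR h]
        · rw [h1, hneg _ (hRtw φ hφR h), hconj φ hφR h]
      have hmem : D.rf φ * D.rf ψ ∈ H := by
        have h2 : D.rf φ * D.rf ψ = D.rf φ * h * (D.rf φ)⁻¹ * h⁻¹ := by
          have h3 : (D.rf φ)⁻¹ = D.rf φ := inv_eq_of_mul_eq_one_left (hsq φ hφR)
          rw [hrf, h3]; group
        rw [h2]
        exact H.mul_mem (hHn.conj_mem h hh _) (H.inv_mem hh)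
      have h4 := (key x hx φ ψ hφ hψ).1 hmem
      have h5 : D.rf φ = D.rf ψ := by
        have h6 := hsq ψ hψR
        calc D.rf φ = D.rf φ * (D.rf ψ * D.rf ψ) := by rw [h6, mul_one]
          _ = D.rf ψ := by rw [← mul_assoc, h4, one_mul]
      rcases hinj φ hφR ψ hψR h5 with h6 | h6
      · exact h6
      · exact absurd (h6 ▸ hψ.1) (hanti x hx φ hφ.1)
    · -- osc
      rintro x hx φ ψ hφ hψ hne ⟨h, hh, hB⟩
      have hφR : φ ∈ D.Rt := hx.sub hφ.1
      have hψR : ψ ∈ D.Rt := hx.sub hψ.1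
      obtain ⟨k, hk, hk1⟩ := hFINO D φ hφR (D.ρ h ψ) (hRtw ψ hψR h) hB
      have h1 := hord _ k hk hk1
      rw [hconj ψ hψR h] at h1
      have hmem : (D.rf φ * D.rf ψ) ^ k0 ∈ H := by
        have := hHn
        rw [← QuotientGroup.eq_one_iff]
        have h2 : ((h : D.W) : D.W ⧸ H) = 1 := (QuotientGroup.eq_one_iff h).mpr hh
        have h3 := congrArg (fun y : D.W => (y : D.W ⧸ H)) h1
        simp only [QuotientGroup.mk_pow, QuotientGroup.mk_mul, QuotientGroup.mk_inv, h2,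
          QuotientGroup.mk_one, one_mul, inv_one, mul_one] at h3
        simpa only [QuotientGroup.mk_pow, QuotientGroup.mk_mul] using h3
      have h4 := (key x hx φ ψ hφ hψ).2 hmem
      by_contra hB'
      push Not at hB'
      have hne' : φ ≠ -ψ := by
        intro h5
        exact hanti x hx ψ hψ.1 (h5 ▸ hφ.1)
      exact hINFO D φ hφR ψ hψR hB' hne hne' k0 hk0pos h4
  · intro H hH H' hle hn hf
    refine ⟨hn, hf, fun h hh => hH.tf h (hle hh), fun h hh => hH.inv h (hle hh), ?_, ?_⟩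
    · rintro x hx φ ψ hφ hψ ⟨h, hh, h1⟩
      exact hH.self x hx φ ψ hφ hψ ⟨h, hle hh, h1⟩
    · rintro x hx φ ψ hφ hψ hne ⟨h, hh, h1⟩
      exact hH.osc x hx φ ψ hφ hψ hne ⟨h, hle hh, h1⟩

end Pool.CS
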