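import Pool.Agent.Work.MP_64ea0f_cs.InterfaceG1

set_option autoImplicit false

namespace Pool.CS

namespace ORT

variable {D : Rd}

/-- expansion of the form in the second variable -/
theorem B_expand (v u : D.V) : D.B v u = ∑ s, v s * D.B u (D.e s) := by
  have h : ∀ s, D.B u (D.e s) = ∑ t, u t * D.k t s := by
    intro s
    unfold Rd.B bform Rd.e
    refine Finset.sum_congr rfl fun t _ => ?_
    rw [Finset.sum_eq_single s]
    · simp
    · intro b _ hb
      simp [Pi.single_eq_of_ne hb]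
    · intro hs; exact absurd (Finset.mem_univ s) hs
  simp only [h]
  unfold Rd.B bform
  refine Finset.sum_congr rfl fun s _ => ?_
  rw [Finset.mul_sum]
  refine Finset.sum_congr rfl fun t _ => ?_
  rw [D.symm s t]
  ring

theorem rho_inv_apply (g : D.W) (v : D.V) : D.ρ g⁻¹ (D.ρ g v) = v := by
  rw [← Module.End.mul_apply, ← map_mul, inv_mul_cancel, map_one, Module.End.one_apply]

theorem rho_apply_inv (g : D.W) (v : D.V) : D.ρ g (D.ρ g⁻¹ v) = v := by
  rw [← Module.End.mul_apply, ← map_mul, mul_inv_cancel, map_one, Module.End.one_apply]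

/-- a finite set of positive reals is bounded below by a positive number -/
theorem exists_pos_le {T : Set ℝ} (hT : T.Finite) (hpos : ∀ x ∈ T, 0 < x) :
    ∃ c : ℝ, 0 < c ∧ ∀ x ∈ T, c ≤ x := by
  induction T, hT using Set.Finite.induction_on with
  | empty => exact ⟨1, one_pos, by simp⟩
  | @insert a T _ _ ih =>
    obtain ⟨c, hc, h⟩ := ih fun x hx => hpos x (Set.mem_insert_of_mem _ hx)
    refine ⟨min a c, lt_min (hpos a (Set.mem_insert _ _)) hc, ?_⟩
    intro x hx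
    rcases Set.mem_insert_iff.1 hx with rfl | hx
    · exact min_le_left _ _
    · exact (min_le_right _ _).trans (h x hx)

theorem Fd_inv (hB : Stmt_BAS) {g : D.W} {u φ : D.V} (h : φ ∈ D.Fd (D.ρ g u)) :
    D.ρ g⁻¹ φ ∈ D.Fd u := by
  obtain ⟨-, -, -, -, -, -, -, b8, -, -, -, -, -, -, -, -⟩ := hB D
  obtain ⟨h1, t, ht, h2⟩ := h
  refine ⟨b8 _ h1 _, t, ht, ?_⟩
  have := b8 _ h2 g⁻¹
  rwa [map_add, map_smul, rho_inv_apply] at this

theorem Fd_map (hB : Stmt_BAS) {g : D.W} {u φ : D.V} (h : φ ∈ D.Fd u) :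
    D.ρ g φ ∈ D.Fd (D.ρ g u) := by
  obtain ⟨-, -, -, -, -, -, -, b8, -, -, -, -, -, -, -, -⟩ := hB D
  obtain ⟨h1, t, ht, h2⟩ := h
  refine ⟨b8 _ h1 _, t, ht, ?_⟩
  have := b8 _ h2 g
  rwa [map_add, map_smul] at this

end ORT

open ORT in
theorem blk_ORT (hB : Stmt_BAS) (hS : Stmt_SGN) (hC : Stmt_COE) (_hP : Stmt_PSD) (hA : Stmt_SAV)
    (hD : Stmt_DRS) (hL : Stmt_LIN) (hT : Stmt_THR) : Stmt_ORT := by
  intro D
  obtain ⟨b1, b2, -, -, b5, b6, b7, b8, b9, -, -, -, -, -, -, -⟩ := hB D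
  obtain ⟨hSav, hfin⟩ := hA D
  have hSaAf : ∀ u, D.Sa u → D.Af u := fun u hu => ⟨1, u, hu, by rw [map_one, Module.End.one_apply]⟩
  have hadd : ∀ v v' w, D.B (v + v') w = D.B v w + D.B v' w := by
    intro v v' w
    have := b2 1 1 v v' w
    simpa using this
  have hsmul : ∀ (t : ℝ) v w, D.B (t • v) w = t * D.B v w := by
    intro t v w
    have := b2 t 0 v v w
    simpa using this
  have hneg : ∀ v w, D.B (-v) w = -D.B v w := by
    intro v w
    have := hsmul (-1) v w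
    simpa using this
  refine ⟨?_, ?_, ?_, ?_⟩
  · rintro δ ⟨g, u, hu, rfl⟩
    have h0 : D.B (D.ρ g u) (D.ρ g u) = 0 := by rw [b5]; exact hu.2.1
    refine ⟨?_, ?_, h0⟩
    · rintro φ ⟨h1, t, ht, h2⟩
      have e1 := b6 _ h2
      have e2 := b6 _ h1
      rw [hadd, b1 φ, b1 (t • _), hadd, hadd, hsmul, hsmul, e2, b1 φ (t • _), hsmul, b1 (D.ρ g u) (t • _),
        hsmul, h0] at e1
      have e3 : t * D.B (D.ρ g u) φ = 0 := by
        rw [b1 φ] at *
        linarith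
      rw [b1]
      exact (mul_eq_zero.1 e3).resolve_left ht
    · rintro μ ⟨hμ, hμ0, hμF⟩ φ hφ
      obtain ⟨-, -, a3, a4, -⟩ := hSav u hu
      have hL2 := (hL D u hu).2
      have hφ' := (hL2 _).1 (Fd_inv hB hφ)
      have hμ' : D.ρ g⁻¹ μ ∈ D.Rt := b8 _ hμ _
      have h1 : D.B u (D.ρ g⁻¹ μ) = 0 := by
        rw [← b5 g, rho_apply_inv, b1]; exact hμ0
      rcases a3 _ hμ' h1 with h | h
      · exfalso
        apply hμF
        have := Fd_map hB (g := g) ((hL2 _).2 ⟨hμ', h⟩)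
        rwa [rho_apply_inv] at this
      · have := a4 _ h _ hφ'.2
        rw [b5] at this
        rw [b1]; exact this
  · -- κ0
    have hT0 : ({r : ℝ | ∃ u ∈ {u | D.Sa u}, ∃ s, D.B u (D.e s) ≠ 0 ∧ r = |D.B u (D.e s)|}).Finite := by
      have : ((fun p : D.V × D.S => |D.B p.1 (D.e p.2)|) '' ({u | D.Sa u} ×ˢ Set.univ)).Finite :=
        (hfin.prod Set.finite_univ).image _
      apply this.subset
      rintro r ⟨u, hu, s, -, rfl⟩
      exact ⟨(u, s), ⟨hu, Set.mem_univ _⟩, rfl⟩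
    obtain ⟨κ, hκ, hκ'⟩ := exists_pos_le hT0 (by
      rintro r ⟨u, -, s, h, rfl⟩
      exact abs_pos.2 h)
    refine ⟨κ, hκ, ?_⟩
    rintro δ ⟨g, u, hu, rfl⟩ μ hμ
    -- positive roots at `u`
    have key : ∀ ν ∈ D.Ps, D.B ν u = 0 ∨ κ ≤ |D.B ν u| := by
      intro ν hν
      by_cases h0 : D.B ν u = 0
      · exact Or.inl h0
      right
      have hex : ∃ s, ν s * D.B u (D.e s) ≠ 0 := by
        by_contra hcon
        push Not at hcon
        apply h0
        rw [B_expand]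
        exact Finset.sum_eq_zero fun s _ => hcon s
      obtain ⟨s, hs⟩ := hex
      have hνs : ν s ≠ 0 := left_ne_zero_of_mul hs
      have hBs : D.B u (D.e s) ≠ 0 := right_ne_zero_of_mul hs
      have h1 : 1 ≤ ν s := hC D ν hν s hνs
      have h2 : κ ≤ |D.B u (D.e s)| := hκ' _ ⟨u, hu, s, hBs, rfl⟩
      have h3 : D.B ν u ≤ ν s * D.B u (D.e s) := by
        rw [B_expand]
        have := Finset.sum_le_sum_of_subset_of_nonneg (f := fun s => -(ν s * D.B u (D.e s)))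
          (Finset.subset_univ {s}) (fun t _ _ => by
            have := mul_nonneg (hν.2 t) (neg_nonneg.2 (hu.1.2 t))
            linarith)
        rw [Finset.sum_singleton, Finset.sum_neg_distrib] at this
        linarith
      have h4 : D.B u (D.e s) ≤ 0 := hu.1.2 s
      rw [abs_of_nonpos h4] at h2
      have h5 : ν s * D.B u (D.e s) ≤ -κ := by nlinarith
      rw [abs_of_nonpos (by linarith)]
      linarith
    have e : D.B μ (D.ρ g u) = D.B (D.ρ g⁻¹ μ) u := by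
      rw [← b5 g (D.ρ g⁻¹ μ) u, rho_apply_inv]
    rw [e]
    rcases (hS D).1 _ (b8 _ hμ g⁻¹) with h | h
    · exact key _ h
    · have := key _ h
      rwa [hneg, neg_eq_zero, abs_neg] at this
  · -- steps
    choose U hUf hU1 hU2 using fun u (hu : D.Sa u) => (hD D u hu).1
    let T : Set ℝ := ⋃ (u) (hu : u ∈ {u | D.Sa u}), (fun ψ => D.cst u ψ) '' U u hu
    have hTf : T.Finite := hfin.biUnion' fun u hu => (hUf u hu).image _
    have hFd : ∀ u (hu : D.Sa u), ∀ ψ ∈ U u hu, ψ ∈ D.Fd u := by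
      intro u hu ψ hψ
      exact ((hL D u hu).2 ψ).2 (hU1 u hu ψ hψ)
    have hTp : ∀ x ∈ T, 0 < x := by
      intro x hx
      simp only [T, Set.mem_iUnion] at hx
      obtain ⟨u, hu, ψ, hψ, rfl⟩ := hx
      exact (hT D u (hSaAf u hu) ψ (hFd u hu ψ hψ)).1
    have hmem : ∀ δ, D.Af δ → ∀ φ ∈ D.Fd δ, D.cst δ φ ∈ T := by
      rintro δ ⟨g, u, hu, rfl⟩ φ hφ
      have hφ' := Fd_inv hB hφ
      have e1 : D.cst (D.ρ g u) φ = D.cst u (D.ρ g⁻¹ φ) := by
        have := ((hT D u (hSaAf u hu) _ hφ').2.2.2.2.2.2.2.2.2 g).2.2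
        rwa [rho_apply_inv] at this
      obtain ⟨h1, h2⟩ := ((hL D u hu).2 _).1 hφ'
      obtain ⟨ψ, hψ, t, ht⟩ := hU2 u hu _ h1 h2
      have e2 : D.cst u (D.ρ g⁻¹ φ) = D.cst u ψ := by
        rw [ht]
        exact ((hT D u (hSaAf u hu) ψ (hFd u hu ψ hψ)).2.2.1 t (by rw [← ht]; exact h1)).1
      rw [e1, e2]
      simp only [T, Set.mem_iUnion]
      exact ⟨u, hu, ψ, hψ, rfl⟩
    obtain ⟨c0, hc0, hc0'⟩ := exists_pos_le hTf hTp
    obtain ⟨c1, hc1⟩ := hTf.bddAbove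
    exact ⟨c0, c1, hc0, fun δ hδ φ hφ => ⟨hc0' _ (hmem δ hδ φ hφ), hc1 (hmem δ hδ φ hφ)⟩⟩
  · -- number of directions
    choose U hUf hU1 hU2 using fun u (hu : D.Sa u) => (hD D u hu).1
    let T : Set D.V := ⋃ (u) (hu : u ∈ {u | D.Sa u}), U u hu
    have hTf : T.Finite := hfin.biUnion' fun u hu => hUf u hu
    refine ⟨T.ncard, ?_⟩
    rintro δ ⟨g, u, hu, rfl⟩ A ⟨hA1, hA2⟩
    have hex : ∀ α : D.V, α ∈ A → ∃ ψ ∈ T, ∃ t : ℝ, D.ρ g⁻¹ α = ψ + t • u := by
      intro α hα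
      obtain ⟨h1, h2⟩ := ((hL D u hu).2 _).1 (Fd_inv hB (hA1 α hα))
      obtain ⟨ψ, hψ, t, ht⟩ := hU2 u hu _ h1 h2
      refine ⟨ψ, ?_, t, ht⟩
      simp only [T, Set.mem_iUnion]
      exact ⟨u, hu, hψ⟩
    choose! F hF1 τ hF2 using hex
    have hinj : Set.InjOn F (A : Set D.V) := by
      intro α hα α' hα' heq
      have e1 := hF2 α hα
      have e2 := hF2 α' hα'
      rw [heq] at e1
      have e3 : α = α' + (τ α - τ α') • D.ρ g u := by
        have h3 : D.ρ g⁻¹ α = D.ρ g⁻¹ α' + (τ α - τ α') • u := by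
          rw [e1, e2]; module
        have h4 := congrArg (D.ρ g) h3
        rwa [rho_apply_inv, map_add, map_smul, rho_apply_inv] at h4
      exact (hA2 α (hA1 α hα)).unique ⟨hα, 0, by simp⟩ ⟨hα', _, e3⟩
    rw [← Set.ncard_coe_finset A]
    exact Set.ncard_le_ncard_of_injOn F (fun α hα => hF1 α hα) hinj hTf

end Pool.CS
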