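import Pool.Agent.Work.MP_64ea0f_cs.InterfaceB

set_option autoImplicit false

/-! Block RTW: the property `RT` for elements of a deep subgroup. -/

namespace Pool.CS

/-- a normal subgroup of finite index below the image of a finite index subgroup of a finite
index subgroup -/
theorem RTW.exists_normal {G : Type} [Group G] (K : Subgroup G) [K.FiniteIndex] (T : Subgroup K)
    [T.FiniteIndex] : ∃ M : Subgroup G, M.Normal ∧ M.FiniteIndex ∧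
      ∀ g ∈ M, ∃ hg : g ∈ K, (⟨g, hg⟩ : K) ∈ T := by
  have h1 : (T.map K.subtype).FiniteIndex := by
    refine ⟨?_⟩
    rw [Subgroup.index_map_subtype]
    exact mul_ne_zero Subgroup.FiniteIndex.index_ne_zero Subgroup.FiniteIndex.index_ne_zero
  refine ⟨(T.map K.subtype).normalCore, inferInstance, inferInstance, fun g hg => ?_⟩
  have h2 := Subgroup.normalCore_le _ hg
  obtain ⟨k, hk, rfl⟩ := Subgroup.mem_map.mp h2
  exact ⟨k.2, hk⟩

theorem RTW.finite_comap {G G' : Type} [Group G] [Group G'] (f : G →* G') (T : Subgroup G')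
    [T.FiniteIndex] : (T.comap f).FiniteIndex := by
  refine ⟨?_⟩
  rw [Subgroup.index_comap]
  exact (inferInstance : (T.subgroupOf f.range).FiniteIndex).index_ne_zero

theorem rtw_thm (hLBF : Stmt_LBF) (hLSX : Stmt_LSX) (hDEV : Stmt_DEV) (hVRC : Stmt_VRC)
    (hRTC : Stmt_RTC) : Stmt_RTW := by
  intro D hAF H hH x hx y hy M hMn hMf
  obtain ⟨L, hL⟩ := (hLSX D H hH).1
  obtain ⟨b, κ, c, hdev, -⟩ := hDEV D H hH L hL
  obtain ⟨K, r, hKf, hK⟩ := hVRC D hAF H hH L hL b κ c hdev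
  have hHn := hH.nor
  have hHf := hH.fin
  have hfinLb : Finite (D.Lb H) := hLBF D H hHf
  -- the subgroup `M_C`
  have hMH : (M.subgroupOf H).FiniteIndex := inferInstance
  have hT1 : ((M.subgroupOf H).comap r).FiniteIndex := RTW.finite_comap r _
  obtain ⟨MC, hMCn, hMCf, hMC⟩ := RTW.exists_normal K ((M.subgroupOf H).comap r)
  -- the conjugates of `y`
  let rep : D.W ⧸ H → D.W := fun i => Quotient.out i
  have hrep : ∀ g : D.W, g * (rep (g : D.W ⧸ H))⁻¹ ∈ H := by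
    intro g
    rw [← QuotientGroup.eq_one_iff, QuotientGroup.mk_mul, QuotientGroup.mk_inv]
    have : ((rep (g : D.W ⧸ H) : D.W) : D.W ⧸ H) = (g : D.W ⧸ H) := Quotient.out_eq' _
    rw [this, mul_inv_cancel]
  let yi : D.W ⧸ H → H := fun i => ⟨rep i * y * (rep i)⁻¹, hHn.conj_mem y hy _⟩
  have hR : ∀ i, ∃ M' : Subgroup (RC (D.lg H)), M'.Normal ∧ M'.FiniteIndex ∧
      ∀ γ, γ * c (yi i) * γ⁻¹ * (c ⟨x, hx⟩)⁻¹ ∈ M' → ∃ m ∈ MC, (m * γ) * c (yi i) * (m * γ)⁻¹ =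
        c ⟨x, hx⟩ := fun i => hRTC (D.Lb H) (D.lg H) (c ⟨x, hx⟩) (c (yi i)) MC hMCn hMCf
  choose M' hM'n hM'f hM' using hR
  have hfinq : Finite (D.W ⧸ H) := Subgroup.finite_quotient_of_finiteIndex
  have hT2 : (⨅ i, (M' i).comap c).FiniteIndex := by
    refine Subgroup.finiteIndex_iInf fun i => ?_
    have := hM'f i
    exact RTW.finite_comap c _
  obtain ⟨M2, hM2n, hM2f, hM2⟩ := RTW.exists_normal H (⨅ i, (M' i).comap c)
  refine ⟨M2, hM2n, hM2f, fun g hg => ?_⟩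
  set i : D.W ⧸ H := (g : D.W ⧸ H) with hi
  let h : H := ⟨g * (rep i)⁻¹, hrep g⟩
  obtain ⟨hgH, hgT⟩ := hM2 _ hg
  have heq : (⟨g * y * g⁻¹ * x⁻¹, hgH⟩ : H) = h * yi i * h⁻¹ * (⟨x, hx⟩ : H)⁻¹ := by
    apply Subtype.ext
    change g * y * g⁻¹ * x⁻¹ = g * (rep i)⁻¹ * (rep i * y * (rep i)⁻¹) * (g * (rep i)⁻¹)⁻¹ * x⁻¹
    group
  rw [heq] at hgT
  have hgT' := (Subgroup.mem_iInf.mp hgT) i
  rw [Subgroup.mem_comap, map_mul, map_mul, map_mul, map_inv, map_inv] at hgT'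
  obtain ⟨m, hm, hm1⟩ := hM' i (c h) hgT'
  obtain ⟨hmK, hmT⟩ := hMC m hm
  obtain ⟨hhK, hhr⟩ := hK h
  obtain ⟨hyK, hyr⟩ := hK (yi i)
  obtain ⟨hxK, hxr⟩ := hK ⟨x, hx⟩
  have h3 : ((⟨m, hmK⟩ : K) * ⟨c h, hhK⟩) * ⟨c (yi i), hyK⟩ * ((⟨m, hmK⟩ : K) * ⟨c h, hhK⟩)⁻¹ =
      ⟨c ⟨x, hx⟩, hxK⟩ := Subtype.ext hm1
  have h4 := congrArg r h3
  rw [map_mul, map_mul, map_inv, map_mul, hhr, hyr, hxr] at h4
  have h5 := congrArg (fun z : H => (z : D.W)) h4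
  refine ⟨(r ⟨m, hmK⟩ : D.W), ?_, ?_⟩
  · have h6 := hmT
    rw [Subgroup.mem_comap, Subgroup.mem_subgroupOf] at h6
    exact h6
  · have h7 : ((r ⟨m, hmK⟩ : D.W) * (g * (rep i)⁻¹)) * (rep i * y * (rep i)⁻¹) *
        ((r ⟨m, hmK⟩ : D.W) * (g * (rep i)⁻¹))⁻¹ = x := h5
    rw [← h7]
    group

end Pool.CS
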